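import Pool.Agent.Q218.UD.Gau
import Pool.Agent.Q218.UD.Uni

/-!
# Gaussian disorder, `d ≥ 3`: quantum diffusion beyond the kinetic time scale

`H_σ = Δ + σ ξ` on `ℤ^d`, `d ≥ 3`, `(Δψ)(x) = ∑_{|y-x|=1} ψ(y)`, iid standard Gaussian `ξ` (an
unbounded potential). The Schrödinger equation `i ψ' = H_σ ψ`, `ψ_0 = δ_a`, has exactly one solution
of norm one, for every `σ`, `ξ`, `a`. Let `X_t` be the position at the time `t`, that is,
`P(X_t = x) = |ψ_t(x)|²`. Let `h` be an integrable function on `(0, ∞)`, for instance the indicator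
function of an interval, let `K ≥ 0` and `ε > 0`. For all `0 < |σ| ≤ σ₀(d, h, K, ε)`, with
probability at least `1 - exp(-|σ|^{-1/4000})`, the following holds simultaneously for

* all starting points `|a| ≤ exp(|σ|^{-1/4000})`,
* all times `|σ|^{-2.013} ≤ T ≤ |σ|^{-2.024}` (the kinetic time scale is `σ⁻²`),
* all `q ∈ ℝ^d` with `|q|² ≤ K`:

`∫_0^∞ h(s) ⟨exp(i |σ| T^{-1/2} q·(X_{sT} - a))⟩ ds` differs by at most `ε` from
`∫_0^∞ h(s) ∫ ρ(E) exp(-2 s D(E) |q|²) dE ds`.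

Here `ρ(E) = Im g₀(E) / π` is the density of states of the free Laplacian, a probability density on
`[-2 d, 2 d]`, and `D(E) = Im g₁(E) / (Im g₀(E))²` is the diffusion constant of the linear Boltzmann
equation at the energy `E`. So in the time average the rescaled position of the quantum particle is
distributed as a Brownian motion whose diffusion constant is chosen at random: `D(E)` with `E`
distributed according to the density of states.
-/

set_option autoImplicit false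

open scoped BigOperators ENNReal Topology
open MeasureTheory Filter ProbabilityTheory

namespace Pool.Agent.Results.MP_1906c1_mp.QuantumDiffusion

open Pool.Agent.TH794.QD (Sol GF F0 F1)
open Pool.Agent.Q218.UD
open Pool.Agent.Q218.AD2 (Psi)

/-- `(H_σ ψ)(x) = ∑_{|y-x|=1} ψ(y) + σ ξ(x) ψ(x)` -/
noncomputable def H {d : ℕ} (σ : ℝ) (ξ : (Fin d → ℤ) → ℝ) (ψ : (Fin d → ℤ) → ℂ)
    (x : Fin d → ℤ) : ℂ :=
  ∑ i : Fin d, (ψ (x + Pi.single i 1) + ψ (x - Pi.single i 1)) + ((σ * ξ x : ℝ) : ℂ) * ψ x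

/-- `ψ_t = exp(-itH_σ) δ_a`: the solution in `ℓ²(ℤ^d)`, of norm one, of the Schrödinger equation
`i ∂_t ψ = H_σ ψ` which starts at `δ_a` -/
structure IsEvolution {d : ℕ} (σ : ℝ) (ξ : (Fin d → ℤ) → ℝ) (a : Fin d → ℤ)
    (ψ : ℝ → (Fin d → ℤ) → ℂ) : Prop where
  init : ∀ x, ψ 0 x = if x = a then 1 else 0
  ode : ∀ t x, HasDerivAt (fun t => ψ t x) (-Complex.I * H σ ξ (ψ t) x) t
  norm : ∀ t, HasSum (fun x => ‖ψ t x‖ ^ 2) 1

/-- `∫_0^1 exp(-is · 2 cos 2πx) dx` -/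
noncomputable def p0 (s : ℝ) : ℂ :=
  ∫ x in (0 : ℝ)..1, Complex.exp (Complex.I * ((-s * (2 * Real.cos (2 * Real.pi * x)) : ℝ) : ℂ))

/-- `∫_0^1 sin²(2πx) exp(-is · 2 cos 2πx) dx` -/
noncomputable def p1 (s : ℝ) : ℂ :=
  ∫ x in (0 : ℝ)..1, ((Real.sin (2 * Real.pi * x) ^ 2 : ℝ) : ℂ) *
    Complex.exp (Complex.I * ((-s * (2 * Real.cos (2 * Real.pi * x)) : ℝ) : ℂ))

/-- the boundary value `∫_{[0,1]^d} (∑ 2 cos 2πk_i - E - i0)⁻¹ dk` -/
noncomputable def g0 (d : ℕ) (E : ℝ) : ℂ :=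
  Complex.I * ∫ s in Set.Ioi (0 : ℝ), p0 s ^ d * Complex.exp (Complex.I * (E : ℂ) * s)

/-- the boundary value `∫_{[0,1]^d} sin²(2πk_1) (∑ 2 cos 2πk_i - E - i0)⁻¹ dk` -/
noncomputable def g1 (d : ℕ) (E : ℝ) : ℂ :=
  Complex.I * ∫ s in Set.Ioi (0 : ℝ), p1 s * p0 s ^ (d - 1) * Complex.exp (Complex.I * (E : ℂ) * s)

/-- the diffusion constant at the energy `E` -/
noncomputable def D (d : ℕ) (E : ℝ) : ℝ := (g1 d E).im / (g0 d E).im ^ 2

/-- the characteristic function, at a point `q` with `|q|² = Q` and at the time `s`, of the Brownian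
motion with the diffusion constant `2 D(E)`, the energy `E` being distributed according to the
density of states `ρ(E) = Im g₀(E) / π` of the free Laplacian -/
noncomputable def law (d : ℕ) (Q s : ℝ) : ℝ :=
  ∫ E in (-(2 * (d : ℝ)))..(2 * (d : ℝ)), (g0 d E).im / Real.pi * Real.exp (-(2 * s * D d E * Q))

theorem g0_eq (d : ℕ) (E : ℝ) : (g0 d E).im = D0 d E := rfl

theorem g1_eq (d : ℕ) (E : ℝ) : (g1 d E).im = D1 d E := rfl

theorem D_eq (d : ℕ) (E : ℝ) : D d E = D1 d E / D0 d E ^ 2 := rfl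

theorem law_eq (d : ℕ) (hd : 3 ≤ d) (Q s : ℝ) : law d Q s = Psi (D0 d) (D1 d) Q s :=
  law3 d hd Q s

/-- the complex conjugate solves the equation with the opposite signs -/
theorem evo_sol {d : ℕ} {σ : ℝ} {ξ : (Fin d → ℤ) → ℝ} {a : Fin d → ℤ}
    {ψ : ℝ → (Fin d → ℤ) → ℂ} (h : IsEvolution σ ξ a ψ) :
    Sol d (fun x => -(σ * ξ x)) a fun t x => (starRingEnd ℂ) (ψ t x) :=
  sol_conj (V := fun x => σ * ξ x) h.init h.ode h.norm

theorem sol_evo {d : ℕ} {σ : ℝ} {ξ : (Fin d → ℤ) → ℝ} {a : Fin d → ℤ}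
    {ψ : ℝ → (Fin d → ℤ) → ℂ} (h : Sol d (fun x => -(σ * ξ x)) a ψ) :
    IsEvolution σ ξ a fun t x => (starRingEnd ℂ) (ψ t x) where
  init := fun x => by
    rw [h.init x]
    split_ifs <;> simp
  ode := fun t x => conj_sol (V := fun x => σ * ξ x) h t x
  norm := fun t => by
    simp only [Complex.norm_conj]
    exact h.norm t

theorem evo_unique {d : ℕ} (hd : 1 ≤ d) (σ : ℝ) (ξ : (Fin d → ℤ) → ℝ) (a : Fin d → ℤ) :
    ∃! ψ, IsEvolution σ ξ a ψ := by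
  obtain ⟨ψ, hψ⟩ := exists_solU hd (fun x => -(σ * ξ x)) a
  refine ⟨_, sol_evo hψ, fun φ hφ => ?_⟩
  have h1 := sol_unique (evo_sol hφ) hψ
  funext t x
  have h2 : (starRingEnd ℂ) (φ t x) = ψ t x := congrFun (congrFun h1 t) x
  rw [← h2, Complex.conj_conj]

theorem neg_law (d : ℕ) : (Measure.infinitePi fun _ : Fin d → ℤ => gaussianReal 0 1).map
    (fun ξ x => -ξ x) = Measure.infinitePi fun _ : Fin d → ℤ => gaussianReal 0 1 := by
  have h2 := Measure.infinitePi_map_pi (μ := fun _ : Fin d → ℤ => gaussianReal 0 1)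
    (f := fun _ (s : ℝ) => -s) (fun _ => measurable_neg)
  simp only [gaussianReal_map_neg, neg_zero] at h2
  exact h2

/-- **Theorem.** -/
theorem result (d : ℕ) (hd : 3 ≤ d) :
    (∀ (σ : ℝ) (ξ : (Fin d → ℤ) → ℝ) (a : Fin d → ℤ), ∃! ψ, IsEvolution σ ξ a ψ) ∧
    (∫ E in (-(2 * (d : ℝ)))..(2 * (d : ℝ)), (g0 d E).im / Real.pi = 1 ∧
      ∀ E : ℝ, |E| < 2 * d → 0 < (g0 d E).im ∧ 0 < D d E) ∧
    ∀ h : ℝ → ℝ, IntegrableOn h (Set.Ioi (0 : ℝ)) → ∀ K ε : ℝ, 0 ≤ K → 0 < ε →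
      ∃ σ₀ : ℝ, 0 < σ₀ ∧ ∀ σ : ℝ, 0 < |σ| → |σ| ≤ σ₀ →
      ∃ G : Set ((Fin d → ℤ) → ℝ), MeasurableSet G ∧
        1 - Real.exp (-|σ| ^ (-(1 / 4000) : ℝ)) ≤
          (Measure.infinitePi fun _ : Fin d → ℤ => gaussianReal 0 1).real G ∧
        ∀ ξ ∈ G, ∀ a : Fin d → ℤ, ‖a‖ ≤ Real.exp (|σ| ^ (-(1 / 4000) : ℝ)) →
          ∀ ψ, IsEvolution σ ξ a ψ →
          ∀ T : ℝ, |σ| ^ (-(2013 / 1000) : ℝ) ≤ T → T ≤ |σ| ^ (-(2024 / 1000) : ℝ) →
          ∀ q : Fin d → ℝ, ∑ i, q i ^ 2 ≤ K →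
            ‖(∫ s in Set.Ioi (0 : ℝ), ((h s : ℝ) : ℂ) * ∑' x : Fin d → ℤ,
                Complex.exp (Complex.I *
                ((Real.sqrt (σ ^ 2 / T) * ∑ i, q i * ((x i : ℝ) - a i) : ℝ) : ℂ)) *
                ((‖ψ (s * T) x‖ ^ 2 : ℝ) : ℂ)) -
              ((∫ s in Set.Ioi (0 : ℝ), h s * law d (∑ i, q i ^ 2) s : ℝ) : ℂ)‖ ≤ ε := by
  have hm := Pool.Agent.Q218.AD.dos_mass Pool.Agent.W918.BK.Osc.osc d hd
  refine ⟨evo_unique (by omega), ⟨?_, ?_⟩, ?_⟩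
  · rw [intervalIntegral.integral_div]
    have : ∫ E in (-(2 * (d : ℝ)))..(2 * (d : ℝ)), (g0 d E).im = Real.pi := hm
    rw [this, div_self Real.pi_ne_zero]
  · intro E hE
    obtain ⟨κ, hκ⟩ : ∃ κ, κ = min 1 (2 * d - |E|) := ⟨_, rfl⟩
    have hκ0 : 0 < κ := by rw [hκ]; exact lt_min one_pos (by linarith)
    obtain ⟨m, hm0, hl⟩ := D_low d hd κ hκ0 (by rw [hκ]; exact min_le_left _ _)
    have h1 := hl E (by
      have : κ ≤ 2 * d - |E| := by rw [hκ]; exact min_le_right _ _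
      linarith)
    have h2 := (D01 d hd E).2
    have h3 : 0 < D0 d E := by linarith
    have h4 : 0 < D1 d E := by linarith
    rw [g0_eq, D_eq]
    exact ⟨h3, by positivity⟩
  intro h hh K ε hK hε
  obtain ⟨l0, hl0, hg⟩ := gauDif d (by omega) (D0 d) (D1 d) (free3 d hd) h hh K ε hK hε
  refine ⟨l0, hl0, fun σ hσ hσ0 => ?_⟩
  obtain ⟨G, hG, hPG, hL⟩ := hg |σ| hσ hσ0
  simp only [sq_abs] at hL
  rcases lt_or_gt_of_ne (abs_pos.1 hσ) with hneg | hpos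
  · refine ⟨G, hG, hPG, fun ξ hξ a ha ψ hψ T hT1 hT2 q hq => ?_⟩
    have h1 := hL ξ hξ a ha 0 _ (by
      have h2 := evo_sol hψ
      have h3 : (fun x => -(σ * ξ x)) = fun x => 0 + |σ| * ξ x := by
        funext x
        rw [abs_of_neg hneg]
        ring
      rw [h3] at h2
      exact h2) T hT1 hT2 q hq
    simp only [Complex.norm_conj] at h1
    simp only [law_eq d hd]
    exact h1
  · have hmn : Measurable fun (ξ : (Fin d → ℤ) → ℝ) x => -ξ x := by fun_prop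
    refine ⟨(fun ξ x => -ξ x) ⁻¹' G, hmn hG, ?_, fun ξ hξ a ha ψ hψ T hT1 hT2 q hq => ?_⟩
    · rw [← map_measureReal_apply hmn hG, neg_law]
      exact hPG
    · have h1 := hL _ hξ a ha 0 _ (by
        have h2 := evo_sol hψ
        have h3 : (fun x => -(σ * ξ x)) = fun x => 0 + |σ| * -ξ x := by
          funext x
          rw [abs_of_pos hpos]
          ring
        rw [h3] at h2
        exact h2) T hT1 hT2 q hq
      simp only [Complex.norm_conj] at h1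
      simp only [law_eq d hd]
      exact h1

end Pool.Agent.Results.MP_1906c1_mp.QuantumDiffusion
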