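import Pool.Agent.W792.WA.Br2
import Pool.Agent.Q205.WV.All

/-!
Absolutely continuous spectrum at every disorder strength, for all i.i.d. laws: Anderson type operators
`Δ + b(Δ) + σ ξ` and `K(-i∇) + b(Δ) + V` on `ℓ²(ℤ^d)`, `d ≥ 1`, `Δ` the adjacency operator, where the perturbation
`b(Δ)` of the kinetic energy is small in `L^p` of the torus, `p < 2`.
-/

namespace Pool.Agent.Results.MP_1906c1_mp.ACSpectrumAnyDisorder

open MeasureTheory ProbabilityTheory

noncomputable section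

/-- The energy `∑ i, 2 cos (2 π k_i)` on the torus `(ℝ/ℤ)^d`, the symbol of `Δ`. -/
def energy (d : ℕ) : C(UnitAddTorus (Fin d), ℝ) where
  toFun k := ∑ i, 2 * (fourier 1 (k i)).re
  continuous_toFun := by fun_prop

/-- The hopping amplitudes of the kinetic energy with symbol `K` on the torus: the Fourier
coefficients of `K`. -/
def hopping {d : ℕ} (K : C(UnitAddTorus (Fin d), ℝ)) (x : Fin d → ℤ) : ℂ :=
  UnitAddTorus.mFourierCoeff (fun k => (K k : ℂ)) x

/-- `(K(-i∇) + V) u (x)`. -/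
def op {d : ℕ} (K : C(UnitAddTorus (Fin d), ℝ)) (V : (Fin d → ℤ) → ℝ) (u : (Fin d → ℤ) → ℂ)
    (x : Fin d → ℤ) : ℂ :=
  (∑' y, hopping K (x - y) * u y) + (V x : ℂ) * u x

/-- `(Δ u)(x) = ∑_{|y-x|=1} u(y)`. -/
def adjacency {d : ℕ} (u : (Fin d → ℤ) → ℂ) (x : Fin d → ℤ) : ℂ :=
  ∑ i, (u (x + Pi.single i 1) + u (x - Pi.single i 1))

/-- `u` is square summable and `(A - z) u = δ_x`, i.e. `u = (A - z)⁻¹ δ_x`. -/
def IsGreen {d : ℕ} (A : ((Fin d → ℤ) → ℂ) → (Fin d → ℤ) → ℂ) (z : ℂ) (x : Fin d → ℤ)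
    (u : (Fin d → ℤ) → ℂ) : Prop :=
  Summable (fun y => ‖u y‖ ^ 2) ∧ ∀ y, A u y - z * u y = if y = x then 1 else 0

/-- Purely absolutely continuous spectrum filling the interval `(a₁, a₂)`: for every site `x` the
spectral measure `μ` of `δ_x`, i.e. the finite measure with
`⟨δ_x, (A - z)⁻¹ δ_x⟩ = ∫ dμ(E) / (E - z)` for `Im z > 0`, has on `(a₁, a₂)` a density `h`, positive
almost everywhere there. -/
def ACOn {d : ℕ} (A : ((Fin d → ℤ) → ℂ) → (Fin d → ℤ) → ℂ) (a₁ a₂ : ℝ) : Prop :=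
  ∀ x : Fin d → ℤ, ∃ (μ : Measure ℝ) (h : ℝ → ℝ), IsFiniteMeasure μ ∧
    (∀ z : ℂ, 0 < z.im → (∃ u, IsGreen A z x u) ∧
      ∀ u, IsGreen A z x u → u x = ∫ E : ℝ, 1 / ((E : ℂ) - z) ∂μ) ∧
    Measurable h ∧ (∀ᵐ E ∂(volume.restrict (Set.Ioo a₁ a₂)), 0 < h E) ∧
    μ.restrict (Set.Ioo a₁ a₂)
      = (volume.restrict (Set.Ioo a₁ a₂)).withDensity fun E => ENNReal.ofReal (h E)

/-- The variance of `(t + i) / (t - i)`, a number on the unit circle, for `t` with law `ν`; it is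
positive if and only if `ν` is not a point mass. -/
def spread (ν : Measure ℝ) : ℝ :=
  1 - ‖∫ t : ℝ, ((t : ℂ) + Complex.I) / ((t : ℂ) - Complex.I) ∂ν‖ ^ 2

theorem ac_adj {d : ℕ} (B : C(UnitAddTorus (Fin d), ℝ)) {s : ℝ} {V : (Fin d → ℤ) → ℝ} {a₁ a₂ : ℝ}
    (h : W792.WA.ACIK (W792.WA.Br.adj d + B) 1 (fun y => s * V y) a₁ a₂) :
    ACOn (fun u x => adjacency u x + op B (fun y => s * V y) u x) a₁ a₂ := by
  intro x
  obtain ⟨μ, g, h1, h2, h3, h4, h5⟩ := h x
  refine ⟨μ, g, h1, fun z hz => ?_, h3, h4, h5⟩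
  have e : ∀ u, W792.LL.Sol (W792.LL.hopK (W792.WA.Br.adj d + B)) 1 (fun y => s * V y) z x u
      ↔ IsGreen (fun u x => adjacency u x + op B (fun y => s * V y) u x) z x u := by
    intro u
    rw [W792.WA.Br.sol_adj_iff]
    unfold IsGreen
    refine and_congr_right fun _ => forall_congr' fun y => ?_
    rw [one_mul, add_assoc]
    rfl
  obtain ⟨⟨w, hw⟩, h6⟩ := h2 z hz
  exact ⟨⟨w, (e w).1 hw⟩, fun u hu => h6 u ((e u).2 hu)⟩

theorem ac_gen {d : ℕ} {K : C(UnitAddTorus (Fin d), ℝ)} {V : (Fin d → ℤ) → ℝ} {a₁ a₂ : ℝ}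
    (h : W792.WA.ACIK K 1 V a₁ a₂) : ACOn (op K V) a₁ a₂ := by
  intro x
  obtain ⟨μ, g, h1, h2, h3, h4, h5⟩ := h x
  refine ⟨μ, g, h1, fun z hz => ?_, h3, h4, h5⟩
  have e : ∀ u, W792.LL.Sol (W792.LL.hopK K) 1 V z x u ↔ IsGreen (op K V) z x u := by
    intro u
    unfold W792.LL.Sol IsGreen
    refine and_congr_right fun _ => forall_congr' fun y => ?_
    rw [one_mul]
    rfl
  obtain ⟨⟨w, hw⟩, h6⟩ := h2 z hz
  exact ⟨⟨w, (e w).1 hw⟩, fun u hu => h6 u ((e u).2 hu)⟩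

/-- `b(t) = g(2 d - t)`. -/
def flip (d : ℕ) (g : C(ℝ, ℝ)) : C(ℝ, ℝ) := ⟨fun t => g (2 * d - t), by fun_prop⟩

theorem flip_energy (d : ℕ) (g : C(ℝ, ℝ)) : (flip d g).comp (energy d) = W792.WA.gK g d := by
  ext k
  change g (2 * d - ∑ i, 2 * (fourier 1 (k i)).re) = g (∑ i, (2 - 2 * (fourier 1 (k i)).re))
  congr 1
  rw [Finset.sum_sub_distrib]
  simp
  ring

/-- Let `d ≥ 1`, `a₁ < a₂`, `1 < p < 2`, `ε > 0`.
(1) For every law `ν` which is not a point mass and all `0 < s₀ ≤ s₁` there is a bounded continuous function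
`b` with `∫ |b(energy)| ^ p ≤ ε` such that for EVERY coupling `σ` with `s₀ ≤ |σ| ≤ s₁` the operator
`Δ + b(Δ) + σ ξ`, `ξ x` i.i.d. with law `ν`, has almost surely purely absolutely continuous spectrum on
`(a₁, a₂)`, filling this interval. This applies to the standard Gaussian law.
(2) For every `κ > 0` and every real continuous kinetic energy `K` on the torus there is such a `b` such that
for EVERY law `ν` with `spread ν ≥ κ` this is true for `K(-i∇) + b(Δ) + V`, `V x` i.i.d. with law `ν`. -/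
theorem result (d : ℕ) (hd : 0 < d) (a₁ a₂ p ε : ℝ) (ha : a₁ < a₂) (hp1 : 1 < p) (hp2 : p < 2)
    (hε : 0 < ε) :
    (∀ (ν : Measure ℝ) [IsProbabilityMeasure ν], (∀ a : ℝ, ν {a} < 1) → ∀ s₀ s₁ : ℝ, 0 < s₀ → s₀ ≤ s₁ →
      ∃ b : C(ℝ, ℝ), (∃ B, ∀ t, |b t| ≤ B) ∧ ∫ k, |b (energy d k)| ^ p ≤ ε ∧
        ∀ σ : ℝ, s₀ ≤ |σ| → |σ| ≤ s₁ → ∀ᵐ ξ ∂(Measure.infinitePi fun _ : Fin d → ℤ => ν),
          ACOn (fun u x => adjacency u x + op (b.comp (energy d)) (fun y => σ * ξ y) u x) a₁ a₂) ∧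
    (∀ a : ℝ, gaussianReal 0 1 {a} < 1) ∧
    (∀ κ : ℝ, 0 < κ → ∀ K : C(UnitAddTorus (Fin d), ℝ), ∃ b : C(ℝ, ℝ), (∃ B, ∀ t, |b t| ≤ B) ∧
      ∫ k, |b (energy d k)| ^ p ≤ ε ∧ ∀ (ν : Measure ℝ) [IsProbabilityMeasure ν], κ ≤ spread ν →
        ∀ᵐ V ∂(Measure.infinitePi fun _ : Fin d → ℤ => ν), ACOn (op (K + b.comp (energy d)) V) a₁ a₂) ∧
    ∀ (ν : Measure ℝ) [IsProbabilityMeasure ν], (∀ a : ℝ, ν {a} < 1) → 0 < spread ν := by
  have hpos : ∀ (ν : Measure ℝ) [IsProbabilityMeasure ν], (∀ a : ℝ, ν {a} < 1) → 0 < spread ν :=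
    fun ν _ h => W792.WA.Ch.vr_pos W792.WA.Al.cay ν h
  have hint : ∀ g : C(ℝ, ℝ), ∫ k, |flip d g (energy d k)| ^ p = ∫ k, |g (W792.LL.lap d k)| ^ p := by
    intro g
    refine integral_congr_ae (Filter.Eventually.of_forall fun k => ?_)
    have := congrArg (fun F : C(UnitAddTorus (Fin d), ℝ) => F k) (flip_energy d g)
    change flip d g (energy d k) = g (W792.LL.lap d k) at this
    change |flip d g (energy d k)| ^ p = |g (W792.LL.lap d k)| ^ p
    rw [this]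
  refine ⟨fun ν _ hν s₀ s₁ h0 h01 => ?_, fun a => ?_, fun κ hκ K => ?_, hpos⟩
  · have hs : 0 < W792.WA.vr ν := hpos ν hν
    have hneg : Measurable fun x : ℝ => -x := measurable_neg
    have ipn : IsProbabilityMeasure (ν.map fun x => -x) :=
      Measure.isProbabilityMeasure_map hneg.aemeasurable
    have hνn : ∀ a : ℝ, (ν.map fun x => -x) {a} < 1 := by
      intro a
      rw [Measure.map_apply hneg (measurableSet_singleton a)]
      have : (fun x : ℝ => -x) ⁻¹' {a} = {-a} := by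
        ext x
        simp only [Set.mem_preimage, Set.mem_singleton_iff]
        constructor <;> intro h <;> linarith
      rw [this]
      exact hν _
    have hsn : 0 < W792.WA.vr (ν.map fun x => -x) := hpos _ hνn
    have hl1 : 0 < s₁ := h0.trans_le h01
    have hm0 : 0 < min (s₀ ^ 2) (1 / s₁ ^ 2) := lt_min (by positivity) (by positivity)
    have hκ : 0 < min (s₀ ^ 2) (1 / s₁ ^ 2) * min (W792.WA.vr ν) (W792.WA.vr (ν.map fun x => -x)) :=
      mul_pos hm0 (lt_min hs hsn)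
    obtain ⟨g, ⟨B, hB⟩, hg2, hg3⟩ :=
      Q205.WV.All.npfin d (W792.WA.Br.adj d) a₁ a₂ p _ ε hd ha hp1 hp2 hκ hε
    refine ⟨flip d g, ⟨B, fun t => hB _⟩, (hint g).le.trans hg2, fun σ hσ0 hσ1 => ?_⟩
    have hσ : 0 < |σ| := h0.trans_le hσ0
    have hm : Measurable fun x : ℝ => σ * x := measurable_const_mul σ
    have ip : IsProbabilityMeasure (ν.map fun x => σ * x) :=
      Measure.isProbabilityMeasure_map hm.aemeasurable
    have hmin : min (s₀ ^ 2) (1 / s₁ ^ 2) ≤ min (|σ| ^ 2) (1 / |σ| ^ 2) := by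
      refine min_le_min ?_ ?_
      · exact pow_le_pow_left₀ h0.le hσ0 2
      · exact one_div_le_one_div_of_le (by positivity) (pow_le_pow_left₀ hσ.le hσ1 2)
    have h1 : min (s₀ ^ 2) (1 / s₁ ^ 2) * min (W792.WA.vr ν) (W792.WA.vr (ν.map fun x => -x))
        ≤ W792.WA.vr (ν.map fun x => σ * x) := by
      rcases lt_or_ge σ 0 with h | h
      · have e1 : (ν.map fun x => σ * x) = (ν.map fun x => -x).map fun x => |σ| * x := by
          rw [Measure.map_map (measurable_const_mul _) hneg]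
          congr 1
          funext x
          simp [abs_of_neg h]
        rw [e1]
        refine le_trans (mul_le_mul hmin (min_le_right _ _) (le_min hs.le hsn.le) ?_)
          (Q205.WV.All.vrs _ |σ| hσ)
        exact le_min (by positivity) (by positivity)
      · have h' : 0 < σ := by
          rw [abs_of_nonneg h] at hσ
          exact hσ
        refine le_trans (mul_le_mul hmin (min_le_left _ _) (le_min hs.le hsn.le) ?_) ?_
        · exact le_min (by positivity) (by positivity)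
        · rw [abs_of_nonneg h]
          exact Q205.WV.All.vrs ν σ h'
    have h2 := hg3 (ν.map fun x => σ * x) h1
    have h3 := W792.WA.Al.sca ν σ d _ h2
    filter_upwards [h3] with V hV
    rw [← flip_energy] at hV
    exact ac_adj _ hV
  · have := nullSingletonClass_gaussianReal (μ := 0) (v := 1) (by norm_num)
    rw [measure_singleton]
    exact one_pos
  · obtain ⟨g, ⟨B, hB⟩, hg2, hg3⟩ := Q205.WV.All.npfin d K a₁ a₂ p κ ε hd ha hp1 hp2 hκ hε
    refine ⟨flip d g, ⟨B, fun t => hB _⟩, (hint g).le.trans hg2, fun ν _ hν => ?_⟩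
    filter_upwards [hg3 ν hν] with V hV
    rw [flip_energy]
    exact ac_gen hV

end

end Pool.Agent.Results.MP_1906c1_mp.ACSpectrumAnyDisorder
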