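import Pool.Agent.Results.MP_1906c1_mp.QuantumDiffusion
import Pool.Agent.Q218.AT.Gen

/-!
# Gaussian disorder, `d ≥ 3`: all times, and the eigenfunctions

`H_σ = Δ + σ ξ` on `ℤ^d`, `d ≥ 3`, `(Δψ)(x) = ∑_{|y-x|=1} ψ(y)`, iid standard Gaussian `ξ`. Let
`ε, δ > 0`. For `0 < |σ| ≤ σ₀(d, ε, δ)`, with probability at least `1 - exp(-|σ|^{-1/4000})`, the
following holds for every box `Λ = {x : |x - c| ≤ L}` with `L ≥ |σ|^{-3}` inside the box
`{x : |x| ≤ exp(|σ|^{-1/4000})}`.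

1. **All times.** Let `X_t` be the position at the time `t` of the quantum particle which starts at
   the site `a`, so `P_a(X_t = x) = |ψ_t(x)|²`, `ψ_t = exp(-itH_σ) δ_a`. For **every** time
   `T ≥ |σ|^{-2.024}`, with no upper bound on `T`,
   `(1/|Λ|) ∑_{a ∈ Λ} (1/T) ∫_0^T P_a(|X_t - a| ≤ |σ|^{-2.011}) dt ≤ ε`.
2. **Eigenfunctions.** Let `φ_j` be any orthonormal family in `ℓ²(ℤ^d)` and let `e_j` be real
   numbers such that `(H_σ φ_j)(x) = e_j φ_j(x)` at the interior sites `|x - c| < L` of the box. At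
   most `ε |Λ|` of the functions `φ_j` have a mass `≥ δ` in the intersection of `Λ` with some box of
   radius `|σ|^{-2.011}`. This applies to the `|Λ|` normalised eigenfunctions of the restriction of
   `H_σ` to `Λ` with arbitrary self-adjoint boundary conditions, and to the eigenfunctions of `H_σ`
   on `ℤ^d` (if there are any) or on any region which contains `Λ`.

So for small `σ`, at no time and on no box of the sizes above does one see the localization on the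
scale `|σ|^{-2.011}`, which is larger than the kinetic scale `σ⁻²`, except for the fraction `ε` of
the starting points or eigenfunctions.
-/

set_option autoImplicit false

open scoped BigOperators ENNReal Topology
open MeasureTheory Filter ProbabilityTheory

namespace Pool.Agent.Results.MP_1906c1_mp.AllTimes

open Pool.Agent.Results.MP_1906c1_mp.QuantumDiffusion (H IsEvolution evo_unique evo_sol neg_law)
open Pool.Agent.TH794.QD (Sol hmk HS)
open Pool.Agent.H4R2.LO (bx)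
open Pool.Agent.Q218.UD
open Pool.Agent.Q218.AT

/-- the box `{x : |x_i - c_i| ≤ L for all i}` -/
noncomputable def box {d : ℕ} (c : Fin d → ℤ) (L : ℕ) : Finset (Fin d → ℤ) :=
  Fintype.piFinset fun i => Finset.Icc (c i - L) (c i + L)

/-- an orthonormal family in `ℓ²(ℤ^d)`, whose members satisfy the eigenvalue equation of `H_σ` at
the interior sites of the box with the centre `c` and the radius `L` -/
structure LocalEigenSystem {d : ℕ} (σ : ℝ) (ξ : (Fin d → ℤ) → ℝ) (c : Fin d → ℤ) (L : ℕ)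
    {J : Type} (φ : J → (Fin d → ℤ) → ℂ) (e : J → ℝ) : Prop where
  eigen : ∀ j x, ‖x - c‖ < L → H σ ξ (φ j) x = (e j : ℂ) * φ j x
  norm : ∀ j, HasSum (fun x => ‖φ j x‖ ^ 2) 1
  orth : ∀ i j, i ≠ j → HasSum (fun x => (starRingEnd ℂ) (φ i x) * φ j x) 0

/-- **Theorem.** -/
theorem result (d : ℕ) (hd : 3 ≤ d) :
    (∀ (σ : ℝ) (ξ : (Fin d → ℤ) → ℝ) (a : Fin d → ℤ), ∃! ψ, IsEvolution σ ξ a ψ) ∧
    ∀ ε δ : ℝ, 0 < ε → 0 < δ → ∃ σ₀ : ℝ, 0 < σ₀ ∧ ∀ σ : ℝ, 0 < |σ| → |σ| ≤ σ₀ →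
      ∃ G : Set ((Fin d → ℤ) → ℝ), MeasurableSet G ∧
        1 - Real.exp (-|σ| ^ (-(1 / 4000) : ℝ)) ≤
          (Measure.infinitePi fun _ : Fin d → ℤ => gaussianReal 0 1).real G ∧
        ∀ ξ ∈ G, ∀ (c : Fin d → ℤ) (L : ℕ), |σ| ^ (-3 : ℝ) ≤ L →
          ‖c‖ + L ≤ Real.exp (|σ| ^ (-(1 / 4000) : ℝ)) →
        ∀ r : ℕ, (r : ℝ) ≤ |σ| ^ (-(2011 / 1000) : ℝ) →
          (∀ ψ : (Fin d → ℤ) → ℝ → (Fin d → ℤ) → ℂ, (∀ a, IsEvolution σ ξ a (ψ a)) →
            ∀ T : ℝ, |σ| ^ (-(2024 / 1000) : ℝ) ≤ T →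
              ∑ a ∈ box c L, T⁻¹ * ∫ t in (0 : ℝ)..T, ∑ x ∈ box a r, ‖ψ a t x‖ ^ 2 ≤
                ε * (box c L).card) ∧
          (∀ (J : Type) (φ : J → (Fin d → ℤ) → ℂ) (e : J → ℝ), LocalEigenSystem σ ξ c L φ e →
            ∀ s : Finset J,
              (∀ j ∈ s, ∃ z : Fin d → ℤ, δ ≤ ∑ x ∈ box c L ∩ box z r, ‖φ j x‖ ^ 2) →
              (s.card : ℝ) ≤ ε * (box c L).card) := by
  refine ⟨evo_unique (by omega), fun ε δ hε hδ => ?_⟩
  obtain ⟨l0, hl0, hg⟩ := gauAll d (by omega) (D0 d) (D1 d) (free3 d hd) ε δ hε hδ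
  refine ⟨l0, hl0, fun σ hσ hσ0 => ?_⟩
  obtain ⟨G, hG, hPG, hL⟩ := hg |σ| hσ hσ0
  -- the deterministic part
  have main : ∀ (ω ξ : (Fin d → ℤ) → ℝ), ω ∈ G → (∀ x, -(σ * ξ x) = |σ| * ω x) →
      ∀ (c : Fin d → ℤ) (L : ℕ), |σ| ^ (-3 : ℝ) ≤ L →
          ‖c‖ + L ≤ Real.exp (|σ| ^ (-(1 / 4000) : ℝ)) →
        ∀ r : ℕ, (r : ℝ) ≤ |σ| ^ (-(2011 / 1000) : ℝ) →
          (∀ ψ : (Fin d → ℤ) → ℝ → (Fin d → ℤ) → ℂ, (∀ a, IsEvolution σ ξ a (ψ a)) →
            ∀ T : ℝ, |σ| ^ (-(2024 / 1000) : ℝ) ≤ T →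
              ∑ a ∈ box c L, T⁻¹ * ∫ t in (0 : ℝ)..T, ∑ x ∈ box a r, ‖ψ a t x‖ ^ 2 ≤
                ε * (box c L).card) ∧
          (∀ (J : Type) (φ : J → (Fin d → ℤ) → ℂ) (e : J → ℝ), LocalEigenSystem σ ξ c L φ e →
            ∀ s : Finset J,
              (∀ j ∈ s, ∃ z : Fin d → ℤ, δ ≤ ∑ x ∈ box c L ∩ box z r, ‖φ j x‖ ^ 2) →
              (s.card : ℝ) ≤ ε * (box c L).card) := by
    intro ω ξ hω hωξ c L hcL1 hcL2 r hr
    obtain ⟨k1, k2⟩ := hL ω hω c L hcL1 hcL2 r hr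
    refine ⟨fun ψ hψ T hT => ?_, fun J φ e hφ s hs => ?_⟩
    · have hT0 : 0 < T := lt_of_lt_of_le (by positivity) hT
      have h1 := k1 (fun a t x => (starRingEnd ℂ) (ψ a t x)) (fun a => by
        have h2 := evo_sol (hψ a)
        have e1 : (fun x => |σ| * ω x) = fun x => -(σ * ξ x) := funext fun x => (hωξ x).symm
        rw [e1]
        exact h2) T hT
      simp only [Complex.norm_conj] at h1
      rw [← Finset.mul_sum]
      have h2 : T⁻¹ * ∑ a ∈ box c L, ∫ t in (0 : ℝ)..T, ∑ x ∈ box a r, ‖ψ a t x‖ ^ 2 ≤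
          T⁻¹ * (ε * T * (bx c L).card) := mul_le_mul_of_nonneg_left h1 (by positivity)
      refine h2.trans (le_of_eq ?_)
      show T⁻¹ * (ε * T * (bx c L).card) = ε * (bx c L).card
      field_simp
    · exact k2 J (fun j => (hmk (φ j) (hφ.norm j).summable : HS d))
        (Pool.Agent.Q218.AD.ortho φ hφ.norm hφ.orth) (fun j => -e j) (fun j x hx => by
          have h3 := hφ.eigen j x hx
          show -Pool.Agent.W788.LD.Spec.S (φ j) x + ((|σ| * ω x : ℝ) : ℂ) * φ j x =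
            ((-e j : ℝ) : ℂ) * φ j x
          rw [← hωξ x]
          unfold H at h3
          unfold Pool.Agent.W788.LD.Spec.S
          push_cast at h3 ⊢
          linear_combination (-1 : ℂ) * h3) s hs
  rcases lt_or_gt_of_ne (abs_pos.1 hσ) with hneg | hpos
  · exact ⟨G, hG, hPG, fun ξ hξ => main ξ ξ hξ fun x => by
      rw [abs_of_neg hneg]
      ring⟩
  · have hmn : Measurable fun (ξ : (Fin d → ℤ) → ℝ) x => -ξ x := by fun_prop
    refine ⟨(fun ξ x => -ξ x) ⁻¹' G, hmn hG, ?_, fun ξ hξ => main (fun x => -ξ x) ξ hξ fun x => by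
      rw [abs_of_pos hpos]
      ring⟩
    rw [← map_measureReal_apply hmn hG, neg_law]
    exact hPG

end Pool.Agent.Results.MP_1906c1_mp.AllTimes
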