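import Pool.Agent.Q237.LR.Spr
import Pool.Agent.Q237.LR.DIM
import Pool.Agent.Q237.LR.All5

/-!
The Anderson model with standard Gaussian disorder on `ℤ^d`, with an additional arbitrarily weak
hopping with independent random signs which decays slower than `|x-y|^(-d)`: at every disorder the
spectrum is almost surely purely continuous, the eigenfunctions of finite volumes spread, and for the
amplitudes `e |x-y|^(-α)`, `d/2 < α < d`, all spectral measures have local dimension at least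
`2 - 2 α / d`.
-/

set_option autoImplicit false

namespace Pool.Agent.Results.MP_1906c1_mp.NoBoundStates

open MeasureTheory ProbabilityTheory Set

/-- The sign `1` or `-1` of a coin. -/
def sgn (b : Bool) : ℝ := if b then 1 else -1

/-- The fair coin. -/
noncomputable def coin : Measure Bool := (PMF.uniformOfFintype Bool).toMeasure

/-- The law of the disorder: `ξ(x)`, `x ∈ ℤ^d`, independent standard Gaussian, and independent of
them an independent fair coin for every unordered pair of sites. -/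
noncomputable def law (d : ℕ) :
    Measure (((Fin d → ℤ) → ℝ) × (Sym2 (Fin d → ℤ) → Bool)) :=
  (Measure.infinitePi fun _ : (Fin d → ℤ) => gaussianReal 0 1).prod
    (Measure.infinitePi fun _ : Sym2 (Fin d → ℤ) => coin)

/-- `(H ψ)(x) = ∑_{|y-x|=1} ψ(y) + ∑_y s_{xy} κ(x-y) ψ(y) + σ ξ(x) ψ(x)`, where `s_{xy} = s_{yx}` is
the sign of the coin of the pair `{x, y}`. -/
noncomputable def H {d : ℕ} (κ : (Fin d → ℤ) → ℝ) (σ : ℝ) (s : Sym2 (Fin d → ℤ) → Bool)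
    (ξ : (Fin d → ℤ) → ℝ) (ψ : (Fin d → ℤ) → ℂ) (x : Fin d → ℤ) : ℂ :=
  ∑ i, (ψ (x + Pi.single i 1) + ψ (x - Pi.single i 1)) +
    ∑' y, ((sgn (s s(x, y)) * κ (x - y) : ℝ) : ℂ) * ψ y + ((σ * ξ x : ℝ) : ℂ) * ψ x

/-- Hopping profiles: even, zero at `0`, a bit more than square summable, and for every `M` there is
a finite set `S` of sites with comparable amplitudes, between `β` and `B β`, with `M ≤ β |S|`. -/
def Profile {d : ℕ} (κ : (Fin d → ℤ) → ℝ) : Prop :=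
  κ 0 = 0 ∧ (∀ z, κ (-z) = κ z) ∧ (∃ θ : ℝ, 0 < θ ∧ Summable fun z => κ z ^ 2 * ‖z‖ ^ θ) ∧
  ∃ B : ℝ, ∀ M : ℝ, ∃ (S : Finset (Fin d → ℤ)) (β : ℝ), 0 < β ∧ (0 : Fin d → ℤ) ∉ S ∧
    (∀ z ∈ S, β ≤ |κ z| ∧ |κ z| ≤ B * β) ∧ M ≤ β * S.card

/-- The power law with a power of the logarithm: `e |z|^(-α) (log (1+|z|))^γ` (maximum norm). -/
noncomputable def power (d : ℕ) (α γ e : ℝ) (z : Fin d → ℤ) : ℝ :=
  if z = 0 then 0 else e * ‖z‖ ^ (-α) * Real.log (1 + ‖z‖) ^ γ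

/-- For all square summable `ψ` the series in `H ψ` converge absolutely, and `H ψ = z ψ` for a
complex `z` only if `ψ = 0`. -/
def NoBoundState {d : ℕ} (κ : (Fin d → ℤ) → ℝ) (σ : ℝ) (s : Sym2 (Fin d → ℤ) → Bool)
    (ξ : (Fin d → ℤ) → ℝ) : Prop :=
  ∀ ψ : (Fin d → ℤ) → ℂ, Summable (fun x => ‖ψ x‖ ^ 2) →
    (∀ x, Summable fun y => ((sgn (s s(x, y)) * κ (x - y) : ℝ) : ℂ) * ψ y) ∧
    ∀ z : ℂ, (∀ x, H κ σ s ξ ψ x = z * ψ x) → ψ = 0

/-- Local form: every `ψ` of norm at most one which satisfies `H ψ = z ψ` at the sites of a large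
finite set `G` is small at `x`. -/
def Spreads {d : ℕ} (κ : (Fin d → ℤ) → ℝ) (σ : ℝ) (s : Sym2 (Fin d → ℤ) → Bool)
    (ξ : (Fin d → ℤ) → ℝ) : Prop :=
  ∀ (x : Fin d → ℤ) (ε : ℝ), 0 < ε → ∃ G : Finset (Fin d → ℤ), ∀ (ψ : (Fin d → ℤ) → ℂ) (z : ℂ),
    Summable (fun y => ‖ψ y‖ ^ 2) → ∑' y, ‖ψ y‖ ^ 2 ≤ 1 →
    (∀ y ∈ G, H κ σ s ξ ψ y = z * ψ y) → ‖ψ x‖ ≤ ε

/-- `m` is the spectral measure of `δ_x`: a finite measure with
`∫ dm(E) / (E - z) = ⟨δ_x, (H - z)⁻¹ δ_x⟩ = u(x)` for `Im z > 0`, where `u` is the square summable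
solution of `(H - z) u = δ_x`. -/
def IsSpectral {d : ℕ} (κ : (Fin d → ℤ) → ℝ) (σ : ℝ) (s : Sym2 (Fin d → ℤ) → Bool)
    (ξ : (Fin d → ℤ) → ℝ) (x : Fin d → ℤ) (m : Measure ℝ) : Prop :=
  IsFiniteMeasure m ∧ ∀ z : ℂ, 0 < z.im → ∃ u : (Fin d → ℤ) → ℂ,
    Summable (fun y => ‖u y‖ ^ 2) ∧
    (∀ y, H κ σ s ξ u y = z * u y + if y = x then 1 else 0) ∧
    u x = ∫ E : ℝ, 1 / ((E : ℂ) - z) ∂m

/-- At almost every point with respect to `m` the measure of the interval of radius `η` is at most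
of the order `η ^ θ`. -/
def LocalDimension (m : Measure ℝ) (θ : ℝ) : Prop :=
  ∀ᵐ E ∂m, ∃ C : ℝ, ∀ η : ℝ, 0 < η → η ≤ 1 →
    m (Ioo (E - η) (E + η)) ≤ ENNReal.ofReal (C * η ^ θ)

theorem H_eq {d : ℕ} (κ : (Fin d → ℤ) → ℝ) (σ : ℝ) (s : Sym2 (Fin d → ℤ) → Bool)
    (ξ : (Fin d → ℤ) → ℝ) (ψ : (Fin d → ℤ) → ℂ) (x : Fin d → ℤ) :
    Pool.Agent.Q237.LR4.HK (Pool.Agent.Q237.LR3.nn d) κ s (fun y => σ * ξ y) ψ x =
      H κ σ s ξ ψ x := by
  rw [Pool.Agent.Q237.LR4.HK_nn]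
  rfl

theorem power_zero (d : ℕ) (α e : ℝ) : power d α 0 e = Pool.Agent.Q237.LR3.pw d α e := by
  funext z
  unfold power Pool.Agent.Q237.LR3.pw
  rw [Real.rpow_zero, mul_one]

/-- At every disorder `σ ≠ 0` and for every profile, in particular for arbitrarily weak power law
hopping with `d/2 < α < d`, and at `α = d` with an arbitrarily small power of the logarithm, there are
almost surely no bound states; for the power law the local dimension of the spectral measures is at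
least `2 - 2 α / d`. -/
theorem result (d : ℕ) (hd : 1 ≤ d) (σ : ℝ) (hσ : σ ≠ 0) :
    (∀ κ : (Fin d → ℤ) → ℝ, Profile κ →
      ∀ᵐ p ∂(law d), NoBoundState κ σ p.2 p.1 ∧ Spreads κ σ p.2 p.1) ∧
    (∀ α γ e : ℝ, (d : ℝ) / 2 < α → α ≤ d → 0 ≤ γ → (α < d ∨ 0 < γ) → e ≠ 0 →
      Profile (power d α γ e)) ∧
    ∀ α e : ℝ, (d : ℝ) / 2 < α → α < d → e ≠ 0 → ∀ᵐ p ∂(law d), ∀ x,
      (∃ m, IsProbabilityMeasure m ∧ IsSpectral (power d α 0 e) σ p.2 p.1 x m) ∧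
      ∀ m, IsSpectral (power d α 0 e) σ p.2 p.1 x m → ∀ θ : ℝ, θ < 2 - 2 * α / d →
        LocalDimension m θ := by
  refine ⟨?_, ?_, ?_⟩
  · rintro κ ⟨h0, hs, ⟨θ, hθ, hsum⟩, B, hB⟩
    obtain ⟨hadm, h1, h2, h3⟩ := Pool.Agent.Q237.LR4.adm_gen hd h0 hs hθ hsum
    have hM : Pool.Agent.Q237.LR.Many κ B := by
      intro M
      obtain ⟨S, β, a1, a2, a3, a4⟩ := hB (max M 1)
      refine ⟨S, β, a1, a2, ?_, a3, (le_max_left _ _).trans a4⟩
      by_contra hS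
      rw [Finset.not_nonempty_iff_eq_empty] at hS
      rw [hS, Finset.card_empty, Nat.cast_zero, mul_zero] at a4
      linarith [le_max_right M 1]
    have key := Pool.Agent.Q237.LR4.main1 Pool.Agent.Q58.LR.scl d (Pool.Agent.Q237.LR3.nn d) κ
      1 (2 * d) (min θ 1) B σ hadm h1 h2 h3 hM hσ
    have key' : ∀ᵐ p ∂(law d), ∀ ψ : (Fin d → ℤ) → ℂ, Summable (fun y => ‖ψ y‖ ^ 2) → ∀ z : ℂ,
        (∀ x, Pool.Agent.Q237.LR4.HK (Pool.Agent.Q237.LR3.nn d) κ p.2 (fun y => σ * p.1 y) ψ x =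
          z * ψ x) → ψ = 0 := key
    filter_upwards [key'] with p hp
    refine ⟨fun ψ hψ => ⟨fun x => Pool.Agent.Q237.LR4.converge hadm p.2 ψ hψ x,
      fun z hz => hp ψ hψ z fun x => ?_⟩, fun x ε hε => ?_⟩
    · rw [H_eq]
      exact hz x
    · obtain ⟨G, hG⟩ := Pool.Agent.Q237.LR4.loc hadm p.2 (fun y => σ * p.1 y) hp x hε
      refine ⟨G, fun ψ z hψ hψ1 hz => hG ψ z hψ hψ1 fun y hy => ?_⟩
      rw [H_eq]
      exact hz y hy
  · intro α γ e h1 h2 h3 h4 h5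
    obtain ⟨hadm, θ, hθ, -, hsum⟩ := Pool.Agent.Q237.LR4.lp1' d α γ e hd h1 h3
    obtain ⟨B, hB⟩ := Pool.Agent.Q176.LR.lp2 d α γ e hd
      (lt_of_le_of_lt (by positivity) h1) h2 h3 h4 h5
    refine ⟨hadm.κ0, hadm.κsymm, ⟨θ, hθ, hsum⟩, B, fun M => ?_⟩
    obtain ⟨S, β, a1, a2, -, a3, a4⟩ := hB M
    exact ⟨S, β, a1, a2, a3, a4⟩
  · intro α e h1 h2 he
    obtain ⟨hadm, hinv⟩ := Pool.Agent.Q237.LR4.adjP d α e hd h1
    obtain ⟨-, θ, hθ, hθ2, hsum⟩ := Pool.Agent.Q223.LR.pow1 d α e hd h1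
    have hcut := Pool.Agent.Q237.LR.cut d (Pool.Agent.Q237.LR3.nn d)
      (Pool.Agent.Q237.LR3.pw d α e) 1 (2 * d) θ hadm hθ hθ2 hsum
    obtain ⟨D, hD, hν⟩ := Pool.Agent.Q237.LR5.gadAll 1 one_ne_zero
    have hm : Measurable fun w : ℝ => 0 + σ * w := (measurable_const_mul σ).const_add _
    haveI : IsProbabilityMeasure ((gaussianReal 0 1).map (fun w => 0 + σ * w)) :=
      Measure.isProbabilityMeasure_map hm.aemeasurable
    have hdim := Pool.Agent.Q237.LR5.dimAll d (Pool.Agent.Q237.LR3.nn d) 1 (2 * d) α e (D * |σ⁻¹|)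
      ((gaussianReal 0 1).map (fun w => 0 + σ * w)) inferInstance (by positivity)
      (Pool.Agent.Q237.LR4.dens _ hD hν 0 hσ) hadm hinv hcut hd h1 h2 he
    have hmp2 : MeasurePreserving
        (Prod.map (fun (ω : (Fin d → ℤ) → ℝ) (x : Fin d → ℤ) => 0 + σ * ω x)
          (id : (Sym2 (Fin d → ℤ) → Bool) → _))
        ((Measure.infinitePi fun _ : (Fin d → ℤ) => gaussianReal 0 1).prod
          (Measure.infinitePi fun _ : Sym2 (Fin d → ℤ) => H10PL.coin))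
        ((Measure.infinitePi fun _ : (Fin d → ℤ) => (gaussianReal 0 1).map
          (fun w => 0 + σ * w)).prod
          (Measure.infinitePi fun _ : Sym2 (Fin d → ℤ) => H10PL.coin)) :=
      (Pool.Agent.Q237.LR4.push (gaussianReal 0 1) 0 σ).prod (MeasurePreserving.id _)
    have hdim2 := hmp2.quasiMeasurePreserving.ae hdim
    have hdim' : ∀ᵐ p ∂(law d), ∀ (x : Fin d → ℤ) (m : Measure ℝ), IsFiniteMeasure m →
        Pool.Agent.Q237.LR5.Spec (Pool.Agent.Q237.LR3.nn d)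
          (Pool.Agent.Q237.LR3.pw d α e) p.2 (fun y => 0 + σ * p.1 y) x m → ∀ θ : ℝ,
        θ < 2 - 2 * α / d → ∀ᵐ E ∂m, ∃ C : ℝ, ∀ η : ℝ, 0 < η → η ≤ 1 →
          m (Ioo (E - η) (E + η)) ≤ ENNReal.ofReal (C * η ^ θ) := hdim2
    have hcut' : ∀ᵐ p ∂(law d), H10PL.CutOK (Pool.Agent.Q237.LR3.nn d)
        (Pool.Agent.Q237.LR3.pw d α e) p.2 :=
      Measure.quasiMeasurePreserving_snd.ae hcut
    filter_upwards [hdim', hcut'] with p hdp hc
    simp only [zero_add] at hdp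
    refine fun x => ⟨?_, fun m hm2 θ' hθ' => ?_⟩
    · obtain ⟨m, hm1, hm2⟩ := Pool.Agent.Q237.LR5.exiAll d (Pool.Agent.Q237.LR3.nn d)
        (Pool.Agent.Q237.LR3.pw d α e) 1 (2 * d) hadm p.2 hc (fun y => σ * p.1 y) x
      refine ⟨m, hm1, inferInstance, fun z hz => ?_⟩
      obtain ⟨u, ⟨hu1, hu2⟩, hu3⟩ := hm2 z hz
      refine ⟨u, hu1, fun y => ?_, hu3⟩
      rw [power_zero, ← H_eq]
      exact hu2 y
    · refine hdp x m hm2.1 (fun z hz => ?_) θ' hθ'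
      obtain ⟨u, hu1, hu2, hu3⟩ := hm2.2 z hz
      refine ⟨u, ⟨hu1, fun y => ?_⟩, hu3⟩
      rw [H_eq, ← power_zero]
      exact hu2 y

end Pool.Agent.Results.MP_1906c1_mp.NoBoundStates
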